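import Pool.Agent.H66.ZK.Nea

/-!
# Project ZK, part MVI: moves at a local point where the difference of `P` and `T` has infinite order
-/

set_option autoImplicit false

open Pool.Agent.Y720.MZ Pool.Agent.Q35.TT Pool.Agent.Q149.TT Pool.Agent.Q35.ZC Pool.Agent.H66.TK
open Pool.Agent.H66.ZK

namespace Pool.Agent.H12.ZK

section maps

variable {K E : Type} [Field K] [Field E] (τ : K →+* E)

theorem dn_mp (α : Fin 3 → K) (β : Fin 4 → K) (w t u Z : K) : τ (dn α β w t u Z) =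
    dn (fun i => τ (α i)) (fun i => τ (β i)) (τ w) (τ t) (τ u) (τ Z) := by
  rw [dn, dn, map_add, mm_mp, map_add, sl_mp, map_one]

theorem zz_mp (α : Fin 3 → K) (β : Fin 4 → K) (w t u Z : K) : τ (zz α β w t u Z) =
    zz (fun i => τ (α i)) (fun i => τ (β i)) (τ w) (τ t) (τ u) (τ Z) := by
  rw [zz, zz, map_div₀, dn_mp, map_mul, map_mul, cw_mp, map_neg, map_ofNat]

end maps

section loc

variable {F : Type} [NontriviallyNormedField F]

theorem near_ax {k m : ℕ} (f : Fin k → F → F) (hf : ∀ i, Continuous (f i)) (g : Fin m → F → F)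
    (hg : ∀ i, Continuous (g i)) (r₀ : F) {δ₀ : ℝ} (hδ₀ : 0 < δ₀) :
    ∃ δ : ℝ, 0 < δ ∧ ∀ r : F, ‖r - r₀‖ < δ →
      (∀ i, ‖f i r - f i r₀‖ < δ₀) ∧ ∀ i, ‖g i r - g i r₀‖ < δ₀ := by
  have h1 : ∀ᶠ r in nhds r₀, (∀ i, ‖f i r - f i r₀‖ < δ₀) ∧ ∀ i, ‖g i r - g i r₀‖ < δ₀ := by
    rw [Filter.eventually_and, Filter.eventually_all, Filter.eventually_all]
    constructor
    · intro i
      have h2 : ContinuousAt (fun r => ‖f i r - f i r₀‖) r₀ :=
        (((hf i).sub continuous_const).norm).continuousAt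
      exact h2.eventually_lt_const (by simpa using hδ₀)
    · intro i
      have h2 : ContinuousAt (fun r => ‖g i r - g i r₀‖) r₀ :=
        (((hg i).sub continuous_const).norm).continuousAt
      exact h2.eventually_lt_const (by simpa using hδ₀)
  obtain ⟨δ, hδ, h⟩ := Metric.eventually_nhds_iff_ball.1 h1
  exact ⟨δ, hδ, fun r hr => h r (by rwa [Metric.mem_ball, dist_eq_norm])⟩

theorem near_zz (α : Fin 3 → F) (β : Fin 4 → F) (w t w₀ : F) {τ Y : F}
    (hd : dn α β w t τ Y ≠ 0) {ε η : ℝ} (hη : 0 < η)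
    (hε : ‖w + zz α β w t τ Y * (sl α β w t + τ) - w₀‖ < ε) :
    ∃ κ : ℝ, 0 < κ ∧ ∀ u Z : F, ‖u - τ‖ < κ → ‖Z - Y‖ < κ → dn α β w t u Z ≠ 0 ∧
      ‖t + zz α β w t u Z - (t + zz α β w t τ Y)‖ < η ∧
      ‖w + zz α β w t u Z * (sl α β w t + u) - w₀‖ < ε := by
  have hcd : Continuous fun p : F × F => dn α β w t p.1 p.2 := by
    unfold dn mm
    fun_prop
  have hcz : ContinuousAt (fun p : F × F => zz α β w t p.1 p.2) (τ, Y) := by
    unfold zz
    refine ContinuousAt.div ?_ hcd.continuousAt hd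
    exact (by fun_prop : Continuous fun p : F × F => -2 * (cw α w ![1, t] * p.1)).continuousAt
  have e1 : ∀ᶠ p : F × F in nhds (τ, Y), dn α β w t p.1 p.2 ≠ 0 :=
    hcd.continuousAt.eventually_ne hd
  have e2 : ∀ᶠ p : F × F in nhds (τ, Y),
      ‖t + zz α β w t p.1 p.2 - (t + zz α β w t τ Y)‖ < η := by
    have h2 : ContinuousAt (fun p : F × F =>
        ‖t + zz α β w t p.1 p.2 - (t + zz α β w t τ Y)‖) (τ, Y) :=
      ((continuousAt_const.add hcz).sub continuousAt_const).norm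
    exact h2.eventually_lt_const (by simpa using hη)
  have e3 : ∀ᶠ p : F × F in nhds (τ, Y),
      ‖w + zz α β w t p.1 p.2 * (sl α β w t + p.1) - w₀‖ < ε := by
    have h2 : ContinuousAt (fun p : F × F =>
        ‖w + zz α β w t p.1 p.2 * (sl α β w t + p.1) - w₀‖) (τ, Y) :=
      ((continuousAt_const.add (hcz.mul
        (continuousAt_const.add continuousAt_fst))).sub continuousAt_const).norm
    exact h2.eventually_lt_const hε
  obtain ⟨κ, hκ, h⟩ := Metric.eventually_nhds_iff_ball.1 (e1.and (e2.and e3))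
  refine ⟨κ, hκ, fun u Z hu hZ => h (u, Z) ?_⟩
  rw [Metric.mem_ball, Prod.dist_eq, max_lt_iff, dist_eq_norm, dist_eq_norm]
  exact ⟨hu, hZ⟩

end loc

theorem mvi (h : H66.ZK.S_TGT) : S_MVI := by
  intro K _ _ V _ L _ _ _ s hs a b R hR P hP hI ε hε
  obtain ⟨δ₁, hδ₁, hb⟩ := hs (fun v => qt (ax (ex (s v) a) ![1, (P v).2.2])
    (bx (ex (s v) b) ![1, (P v).2.2]) (P v).1 (P v).2.1) (fun v => (hI v).1) fun v => (hI v).2
  have hm : 0 < min δ₁ ε := lt_min hδ₁ hε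
  choose δ₂ hδ₂ hT using fun v => h (L v) (ax (ex (s v) a) ![1, (P v).2.2])
    (bx (ex (s v) b) ![1, (P v).2.2]) (P v).1 (P v).2.1 (hP v).1 (hP v).2 (hI v).1 (min δ₁ ε) hm
  choose δ₃ hδ₃ hC using fun v => near_ax (fun i r => ax (ex (s v) a) ![1, r] i)
    (fun i => by
      show Continuous fun r : L v => q2 (ex (s v) a i) ![1, r]
      simp only [q2, Matrix.cons_val_zero, Matrix.cons_val_one]
      fun_prop)
    (fun i r => bx (ex (s v) b) ![1, r] i)
    (fun i => by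
      show Continuous fun r : L v => q3 (ex (s v) b i) ![1, r]
      simp only [q3, Matrix.cons_val_zero, Matrix.cons_val_one]
      fun_prop) (P v).2.2 (hδ₂ v)
  obtain ⟨δ, hδ, hδm⟩ := fin_min (f := fun v => min (δ₂ v) (δ₃ v)) fun v => lt_min (hδ₂ v) (hδ₃ v)
  refine ⟨δ, hδ, ?_⟩
  rintro ⟨w, t, r⟩ hz hn tt htt η hη
  by_cases hV : IsEmpty V
  · exact ⟨(w, t, r), hz, rfl, fun v => (hV.false v).elim⟩
  rw [not_isEmpty_iff] at hV
  have hon := hR.on _ hz
  change FF a b w ![1, t] ![1, r] = 0 at hon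
  have hn' : ∀ v, ‖s v w - (P v).1‖ < δ ∧ ‖s v t - (P v).2.1‖ < δ ∧ ‖s v r - (P v).2.2‖ < δ := hn
  have key : ∀ v, cw (ax (ex (s v) a) ![1, s v r]) (s v w) ![1, s v t] ≠ 0 ∧
      ‖(qt (ax (ex (s v) a) ![1, s v r]) (bx (ex (s v) b) ![1, s v r]) (s v w) (s v t)).1 -
        (qt (ax (ex (s v) a) ![1, (P v).2.2]) (bx (ex (s v) b) ![1, (P v).2.2]) (P v).1
          (P v).2.1).1‖ < min δ₁ ε ∧
      (∀ i, ‖(qt (ax (ex (s v) a) ![1, s v r]) (bx (ex (s v) b) ![1, s v r]) (s v w) (s v t)).2 i -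
        (qt (ax (ex (s v) a) ![1, (P v).2.2]) (bx (ex (s v) b) ![1, (P v).2.2]) (P v).1
          (P v).2.1).2 i‖ < min δ₁ ε) ∧
      ∀ t' : L v, ‖t' - (P v).2.1‖ < δ₂ v → ∃ τ Y : L v, ‖τ‖ < min δ₁ ε ∧
        ‖Y - (qt (ax (ex (s v) a) ![1, (P v).2.2]) (bx (ex (s v) b) ![1, (P v).2.2]) (P v).1
          (P v).2.1).1‖ < min δ₁ ε ∧
        Y ^ 2 = qv (qt (ax (ex (s v) a) ![1, s v r]) (bx (ex (s v) b) ![1, s v r]) (s v w)
          (s v t)).1 (qt (ax (ex (s v) a) ![1, s v r]) (bx (ex (s v) b) ![1, s v r]) (s v w)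
          (s v t)).2 τ ∧
        dn (ax (ex (s v) a) ![1, s v r]) (bx (ex (s v) b) ![1, s v r]) (s v w) (s v t) τ Y ≠ 0 ∧
        s v t + zz (ax (ex (s v) a) ![1, s v r]) (bx (ex (s v) b) ![1, s v r]) (s v w) (s v t) τ Y
          = t' ∧
        ‖s v w + zz (ax (ex (s v) a) ![1, s v r]) (bx (ex (s v) b) ![1, s v r]) (s v w) (s v t) τ Y
          * (sl (ax (ex (s v) a) ![1, s v r]) (bx (ex (s v) b) ![1, s v r]) (s v w) (s v t) + τ)
          - (P v).1‖ < min δ₁ ε := by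
    intro v
    have h1 := hC v (s v r) ((hn' v).2.2.trans_le ((hδm v).trans (min_le_right _ _)))
    refine hT v _ _ (s v w) (s v t) h1.1 h1.2
      ((hn' v).1.trans_le ((hδm v).trans (min_le_left _ _)))
      ((hn' v).2.1.trans_le ((hδm v).trans (min_le_left _ _))) ?_
    have h2 := FF_mp (s v) a b w t r
    rw [hon, map_zero] at h2
    exact h2
  choose hcw hq1 hq2 htg using key
  choose τ Y k1 k2 k3 k4 k5 k6 using fun v => htg v (tt v)
    ((htt v).trans_le ((hδm v).trans (min_le_left _ _)))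
  choose κ hκ hz2 using fun v => near_zz (ax (ex (s v) a) ![1, s v r])
    (bx (ex (s v) b) ![1, s v r]) (s v w) (s v t) (P v).1 (k4 v) hη
    ((k6 v).trans_le (min_le_right _ _))
  obtain ⟨κ₀, hκ₀, hκm⟩ := fin_min hκ
  have hqt : ∀ v, qt (ax (ex (s v) a) ![1, s v r]) (bx (ex (s v) b) ![1, s v r]) (s v w) (s v t) =
      (s v (qt (ax a ![1, r]) (bx b ![1, r]) w t).1,
        fun j => s v ((qt (ax a ![1, r]) (bx b ![1, r]) w t).2 j)) := by
    intro v
    rw [← ax_mp, ← bx_mp, qt_mp]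
  obtain ⟨u, Z, g1, g2⟩ := hb (qt (ax a ![1, r]) (bx b ![1, r]) w t)
    (fun v => by
      have h1 := hq1 v
      rw [hqt v] at h1
      exact h1.trans_le (min_le_left _ _))
    (fun v j => by
      have h1 := hq2 v j
      rw [hqt v] at h1
      exact h1.trans_le (min_le_left _ _)) τ Y
    (fun v => (k1 v).trans_le (min_le_left _ _))
    (fun v => (k2 v).trans_le (min_le_left _ _))
    (fun v => by
      have h1 := k3 v
      rw [hqt v] at h1
      exact h1) κ₀ hκ₀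
  have hfin := fun v => hz2 v (s v u) (s v Z) ((g2 v).1.trans_le (hκm v))
    ((g2 v).2.trans_le (hκm v))
  obtain ⟨v₀⟩ := hV
  have hFw : Fw a w ![1, t] ![1, r] ≠ 0 := by
    intro h0
    have h1 := Fw_mp (s v₀) a w t r
    rw [h0, map_zero] at h1
    exact hcw v₀ h1
  have hdn : ∀ v, dn (ax (ex (s v) a) ![1, s v r]) (bx (ex (s v) b) ![1, s v r]) (s v w) (s v t)
      (s v u) (s v Z) = s v (dn (ax a ![1, r]) (bx b ![1, r]) w t u Z) := by
    intro v
    rw [dn_mp, ax_mp, bx_mp]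
  have hzz : ∀ v, zz (ax (ex (s v) a) ![1, s v r]) (bx (ex (s v) b) ![1, s v r]) (s v w) (s v t)
      (s v u) (s v Z) = s v (zz (ax a ![1, r]) (bx b ![1, r]) w t u Z) := by
    intro v
    rw [zz_mp, ax_mp, bx_mp]
  have hsl : ∀ v, sl (ax (ex (s v) a) ![1, s v r]) (bx (ex (s v) b) ![1, s v r]) (s v w) (s v t) =
      s v (sl (ax a ![1, r]) (bx b ![1, r]) w t) := by
    intro v
    rw [sl_mp, ax_mp, bx_mp]
  have hdn0 : dn (ax a ![1, r]) (bx b ![1, r]) w t u Z ≠ 0 := by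
    intro h0
    have h1 := (hfin v₀).1
    rw [hdn v₀, h0, map_zero] at h1
    exact h1 rfl
  refine ⟨_, hR.mv w t r hz hFw u Z g1 hdn0, rfl, fun v => ⟨?_, ?_⟩⟩
  · have h1 := (hfin v).2.1
    rw [k5 v, hzz v, ← map_add] at h1
    exact h1
  · have h1 := (hfin v).2.2
    rw [hzz v, hsl v, ← map_add, ← map_mul, ← map_add] at h1
    exact h1

end Pool.Agent.H12.ZK
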